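import Pool.Agent.K1H30.ES.Stm

set_option autoImplicit false

/-!
# Piece LIFT of the project ES: lifting functions from the curve to the surface
-/

namespace Pool.Agent.K1H78.ES

open MvPolynomial Pool.Agent.K1H30.ES

section bb
variable {S : Type} [CommRing S] (x y : S)

theorem bb_even (a : ℕ) : bb' x y (2 * a) = x ^ a := by
  unfold bb'
  rw [if_pos (even_two_mul a)]
  congr 1
  omega

theorem bb_odd (a : ℕ) : bb' x y (2 * a + 3) = x ^ a * y := by
  unfold bb'
  rw [if_neg (by rw [Nat.not_even_iff]; omega)]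
  congr 2
  omega

theorem ne_one_cases {k : ℕ} (hk : k ≠ 1) : (∃ a, k = 2 * a) ∨ (∃ a, k = 2 * a + 3) := by
  rcases Nat.even_or_odd' k with ⟨a, h | h⟩
  · exact Or.inl ⟨a, h⟩
  · refine Or.inr ⟨a - 1, ?_⟩
    omega

variable (Z : Type) [CommRing Z] [Algebra Z S]

/-- combinations of the basis functions of smaller pole order -/
def Low (m : ℕ) : Submodule Z S :=
  Submodule.span Z {v | ∃ i, i < m ∧ i ≠ 1 ∧ v = bb' x y i}

variable {x y Z}

theorem mem_Low {i m : ℕ} (h : i < m) (h1 : i ≠ 1) : bb' x y i ∈ Low x y Z m :=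
  Submodule.subset_span ⟨i, h, h1, rfl⟩

theorem Low_mono {m m' : ℕ} (h : m ≤ m') : Low x y Z m ≤ Low x y Z m' := by
  apply Submodule.span_mono
  rintro v ⟨i, h1, h2, h3⟩
  exact ⟨i, by omega, h2, h3⟩

theorem M1 {t : Z} (hxy : y ^ 2 = (1 + x) * (x ^ 2 - algebraMap Z S t)) {k l : ℕ} (hk : k ≠ 1)
    (hl : l ≠ 1) : bb' x y k * bb' x y l - bb' x y (k + l) ∈ Low x y Z (k + l) := by
  rcases ne_one_cases hk with ⟨a, rfl⟩ | ⟨a, rfl⟩ <;> rcases ne_one_cases hl with ⟨b, rfl⟩ | ⟨b, rfl⟩
  · have : bb' x y (2 * a) * bb' x y (2 * b) - bb' x y (2 * a + 2 * b) = 0 := by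
      rw [← mul_add, bb_even, bb_even, bb_even]; ring
    rw [this]; exact Submodule.zero_mem _
  · have : bb' x y (2 * a) * bb' x y (2 * b + 3) - bb' x y (2 * a + (2 * b + 3)) = 0 := by
      rw [← add_assoc, ← mul_add, bb_even, bb_odd, bb_odd]; ring
    rw [this]; exact Submodule.zero_mem _
  · have : bb' x y (2 * a + 3) * bb' x y (2 * b) - bb' x y (2 * a + 3 + 2 * b) = 0 := by
      rw [show 2 * a + 3 + 2 * b = 2 * (a + b) + 3 by ring, bb_even, bb_odd, bb_odd]; ring
    rw [this]; exact Submodule.zero_mem _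
  · have : bb' x y (2 * a + 3) * bb' x y (2 * b + 3) - bb' x y (2 * a + 3 + (2 * b + 3)) =
        bb' x y (2 * (a + b + 2)) - t • bb' x y (2 * (a + b + 1)) - t • bb' x y (2 * (a + b)) := by
      rw [show 2 * a + 3 + (2 * b + 3) = 2 * (a + b + 3) by ring, bb_odd, bb_odd, bb_even, bb_even,
        bb_even, bb_even, Algebra.smul_def, Algebra.smul_def]
      linear_combination x ^ (a + b) * hxy
    rw [this]
    exact Submodule.sub_mem _ (Submodule.sub_mem _ (mem_Low (by omega) (by omega))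
      (Submodule.smul_mem _ _ (mem_Low (by omega) (by omega))))
      (Submodule.smul_mem _ _ (mem_Low (by omega) (by omega)))

theorem mul_Low {t : Z} (hxy : y ^ 2 = (1 + x) * (x ^ 2 - algebraMap Z S t)) {k l : ℕ}
    (hk : k ≠ 1) {v : S} (hv : v ∈ Low x y Z l) : bb' x y k * v ∈ Low x y Z (k + l) := by
  induction hv using Submodule.span_induction with
  | mem v hv =>
      obtain ⟨i, hi, hi1, rfl⟩ := hv
      have h1 := M1 hxy hk hi1
      have h2 : bb' x y (k + i) ∈ Low x y Z (k + l) := mem_Low (by omega) (by omega)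
      have h3 := Submodule.add_mem _ (Low_mono (show k + i ≤ k + l by omega) h1) h2
      rwa [sub_add_cancel] at h3
  | zero => rw [mul_zero]; exact Submodule.zero_mem _
  | add v w _ _ h1 h2 => rw [mul_add]; exact Submodule.add_mem _ h1 h2
  | smul c v _ h1 => rw [mul_smul_comm]; exact Submodule.smul_mem _ _ h1

theorem M2 {t : Z} (hxy : y ^ 2 = (1 + x) * (x ^ 2 - algebraMap Z S t)) {k l : ℕ} (hk : k ≠ 1)
    (hl : l ≠ 1) (j : ℕ) :
    bb' x y k ^ j * bb' x y l - bb' x y (j * k + l) ∈ Low x y Z (j * k + l) := by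
  induction j with
  | zero => simp
  | succ j ih =>
      have hjl : j * k + l ≠ 1 := by
        intro h
        rcases Nat.eq_zero_or_pos (j * k) with h0 | h0
        · omega
        · have : j * k = 1 := by omega
          exact hk (Nat.eq_one_of_mul_eq_one_left this)
      have h1 := mul_Low hxy hk ih
      have h2 := M1 hxy hk hjl
      have h3 := Submodule.add_mem _ h1 h2
      have e : (j + 1) * k + l = k + (j * k + l) := by ring
      rw [e]
      convert h3 using 1
      ring

end bb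

section main
variable {S : Type} [CommRing S] {x y : S} {Z : Type} [CommRing Z] [Algebra Z S]

theorem lift_aux {t : Z} (hxy : y ^ 2 = (1 + x) * (x ^ 2 - algebraMap Z S t)) {A B d : ℕ}
    (hA : 2 ≤ A) (hB : 1 ≤ B) (hd : 2 ≤ d) (m : ℕ) (hm : m ≠ 1) (hmd : m ≤ d * (A + B)) :
    bb' x y m ∈ (Cls Z A B d 0).map (aeval ![x, y, bb' x y A] : P3 Z →ₐ[Z] S).toLinearMap := by
  set ev : P3 Z →ₐ[Z] S := aeval ![x, y, bb' x y A] with hev
  have hmon : ∀ i ε j : ℕ, ev (mn (i, ε, j)) = x ^ i * y ^ ε * bb' x y A ^ j := by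
    intro i ε j
    rw [hev, mn]
    simp
  have hin : ∀ l j : ℕ, l ≠ 1 → j ≤ d → (l : ℤ) ≤ ((d : ℤ) - j) * A + j * B →
      bb' x y A ^ j * bb' x y l ∈ (Cls Z A B d 0).map ev.toLinearMap := by
    intro l j hl hj hle
    rcases ne_one_cases hl with ⟨a, rfl⟩ | ⟨a, rfl⟩
    · refine ⟨mn (a, 0, j), Submodule.subset_span ⟨_, ⟨by simp, hj, ?_⟩, rfl⟩, ?_⟩
      · push_cast at hle ⊢
        linarith
      · change ev (mn (a, 0, j)) = _
        rw [hmon, bb_even]; ring
    · refine ⟨mn (a, 1, j), Submodule.subset_span ⟨_, ⟨by simp, hj, ?_⟩, rfl⟩, ?_⟩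
      · push_cast at hle ⊢
        linarith
      · change ev (mn (a, 1, j)) = _
        rw [hmon, bb_odd]; ring
  induction m using Nat.strong_induction_on with
  | _ m ih =>
    have hlow : Low x y Z m ≤ (Cls Z A B d 0).map ev.toLinearMap := by
      rw [Low, Submodule.span_le]
      rintro v ⟨i, hi, hi1, rfl⟩
      exact ih i hi hi1 (by omega)
    rcases le_or_gt m (d * A) with hle | hgt
    · have := hin m 0 hm (by omega) (by
        push_cast
        have : (m : ℤ) ≤ d * A := by exact_mod_cast hle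
        linarith)
      simpa using this
    · have hex : ∃ j, m ≤ d * A + j * B := ⟨d, by rw [← mul_add]; exact hmd⟩
      classical
      set j := Nat.find hex with hj
      have hj1 : m ≤ d * A + j * B := Nat.find_spec hex
      have hj2 : j ≤ d := Nat.find_min' hex (by rw [← mul_add]; exact hmd)
      have hj0 : j ≠ 0 := by
        intro h0
        rw [h0] at hj1
        omega
      obtain ⟨i, hi⟩ := Nat.exists_eq_succ_of_ne_zero hj0
      have hj3 : d * A + i * B < m := not_le.mp (Nat.find_min hex (show i < Nat.find hex by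
        rw [← hj]; omega))
      -- `l = m - j A`
      obtain ⟨r, hr⟩ := Nat.exists_eq_add_of_le hj2
      have hdA : d * A = j * A + r * A := by rw [hr]; ring
      have hl2 : j * A + 2 ≤ m := by
        rcases Nat.eq_zero_or_pos r with h0 | h0
        · -- `j = d`
          have hi1 : 1 ≤ i := by omega
          have : 1 ≤ i * B := Nat.mul_pos hi1 hB
          omega
        · have : 2 ≤ r * A := le_trans hA (Nat.le_mul_of_pos_left A h0)
          omega
      obtain ⟨l, hl⟩ := Nat.exists_eq_add_of_le (show j * A ≤ m by omega)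
      have hlne : l ≠ 1 := by omega
      have h1 := hin l j hlne hj2 (by
        have h2 : l ≤ r * A + j * B := by omega
        have h3 : ((d : ℤ) - j) = r := by rw [hr]; push_cast; ring
        rw [h3]
        exact_mod_cast h2)
      have h2 := M2 (Z := Z) hxy (show A ≠ 1 by omega) hlne j
      rw [← hl] at h2
      have h3 := Submodule.sub_mem _ h1 (hlow h2)
      rwa [sub_sub_cancel] at h3

end main

/-- the universal point -/
theorem univ_point : ∃ (S0 : Type) (_ : CommRing S0) (_ : Algebra (Polynomial ℤ) S0) (x0 y0 : S0),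
    y0 ^ 2 = (1 + x0) * (x0 ^ 2 - algebraMap (Polynomial ℤ) S0 Polynomial.X) ∧
    ∀ (S : Type) [CommRing S] (t x y : S), y ^ 2 = (1 + x) * (x ^ 2 - t) →
      ∃ θ : S0 →+* S, θ.comp (algebraMap (Polynomial ℤ) S0) =
        Polynomial.eval₂RingHom (Int.castRingHom S) t ∧ θ x0 = x ∧ θ y0 = y := by
  let eqn : MvPolynomial (Fin 2) (Polynomial ℤ) :=
    X 1 ^ 2 - (1 + X 0) * (X 0 ^ 2 - C Polynomial.X)
  refine ⟨MvPolynomial (Fin 2) (Polynomial ℤ) ⧸ (Ideal.span {eqn}), inferInstance, inferInstance,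
    Ideal.Quotient.mk _ (X 0), Ideal.Quotient.mk _ (X 1), ?_, ?_⟩
  · have h1 : Ideal.Quotient.mk (Ideal.span {eqn}) eqn = 0 :=
      Ideal.Quotient.eq_zero_iff_mem.mpr (Ideal.subset_span rfl)
    have h2 : Ideal.Quotient.mk (Ideal.span {eqn}) eqn =
        Ideal.Quotient.mk _ (X 1) ^ 2 - (1 + Ideal.Quotient.mk _ (X 0)) *
          (Ideal.Quotient.mk _ (X 0) ^ 2 - algebraMap (Polynomial ℤ)
            (MvPolynomial (Fin 2) (Polynomial ℤ) ⧸ (Ideal.span {eqn})) Polynomial.X) := by
      simp only [eqn, map_sub, map_mul, map_add, map_pow, map_one]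
      rfl
    rw [h2] at h1
    exact sub_eq_zero.mp h1
  · intro S _ t x y hS
    let ψ : Polynomial ℤ →+* S := Polynomial.eval₂RingHom (Int.castRingHom S) t
    let θ0 : MvPolynomial (Fin 2) (Polynomial ℤ) →+* S := eval₂Hom ψ ![x, y]
    have hθ0 : ∀ a ∈ Ideal.span {eqn}, θ0 a = 0 := by
      intro a ha
      have : Ideal.span {eqn} ≤ RingHom.ker θ0 := by
        rw [Ideal.span_le]
        rintro _ rfl
        change θ0 eqn = 0
        simp only [eqn, θ0, map_sub, map_mul, map_add, map_pow, map_one, eval₂Hom_X', eval₂Hom_C]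
        have hψ : ψ Polynomial.X = t := by simp [ψ]
        rw [hψ]
        simp only [Matrix.cons_val_zero, Matrix.cons_val_one]
        rw [hS]
        ring
      exact this ha
    refine ⟨Ideal.Quotient.lift _ θ0 hθ0, ?_, ?_, ?_⟩
    · refine RingHom.ext fun p => ?_
      change θ0 (C p) = ψ p
      simp [θ0]
    · change θ0 (X 0) = x
      simp [θ0]
    · change θ0 (X 1) = y
      simp [θ0]

theorem t_LIFT : S_LIFT := by
  intro A B d m hA hB hd hm hmd
  obtain ⟨S0, _, _, x0, y0, hxy, huniv⟩ := univ_point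
  obtain ⟨H, hH, hH2⟩ := lift_aux (Z := Polynomial ℤ) hxy hA hB hd m hm hmd
  refine ⟨H, hH, ?_⟩
  intro S _ t x y hS
  obtain ⟨θ, hθψ, hx, hy⟩ := huniv S t x y hS
  have hbb : ∀ k, θ (bb' x0 y0 k) = bb' x y k := by
    intro k
    unfold bb'
    split_ifs
    · rw [map_pow, hx]
    · rw [map_mul, map_pow, hx, hy]
  have h3 : θ (aeval ![x0, y0, bb' x0 y0 A] H) = bb' x y m := by
    rw [← hbb m, ← hH2]
    rfl
  rw [← h3, aeval_def, eval₂_comp_left, hθψ]
  congr 1
  funext i
  fin_cases i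
  · exact hx.symm
  · exact hy.symm
  · exact (hbb A).symm

end Pool.Agent.K1H78.ES
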