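import Pool.Agent.K1H30.ES.Stm

set_option autoImplicit false

/-!
# Piece TRF of the project ES: transfer of the separation of jets by minors
-/

namespace Pool.Agent.K1H78.ES

open MvPolynomial Pool.Agent.K1H30.ES

section nat
variable {R R' : Type} [CommRing R] [CommRing R'] (φ : R →+* R')

theorem map_Dv_X (t : R) (i : Fin 3) :
    map φ (Dv t (X i)) = Dv (φ t) (X i) := by
  unfold Dv
  rw [mkDerivation_X, mkDerivation_X]
  fin_cases i <;> simp

theorem map_Dz_X (i : Fin 3) :
    map φ ((Dz : Derivation R (P3 R) (P3 R)) (X i)) = (Dz : Derivation R' (P3 R') (P3 R')) (X i) := by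
  unfold Dz
  rw [mkDerivation_X, mkDerivation_X]
  fin_cases i <;> simp

theorem map_D (D : Derivation R (P3 R) (P3 R)) (D' : Derivation R' (P3 R') (P3 R'))
    (h : ∀ i, map φ (D (X i)) = D' (X i)) (G : P3 R) : map φ (D G) = D' (map φ G) := by
  induction G using MvPolynomial.induction_on with
  | C a =>
      rw [map_C]
      have h1 : D (C a) = 0 := D.map_algebraMap a
      have h2 : D' (C (φ a)) = 0 := D'.map_algebraMap (φ a)
      rw [h1, h2, map_zero]
  | add p q hp hq => simp only [map_add, hp, hq]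
  | mul_X p i hp =>
      simp only [Derivation.leibniz, smul_eq_mul, map_add, map_mul, map_X, hp, h]

theorem map_fn (t : R) (P : Fin 3 → R) (α β : ℕ) (G : P3 R) :
    φ (fn t P α β G) = fn (φ t) (fun i => φ (P i)) α β (map φ G) := by
  unfold fn
  have h1 : ∀ H : P3 R, map φ ((⇑(Dv t))^[α] H) = (⇑(Dv (φ t)))^[α] (map φ H) := fun H =>
    Function.Semiconj.iterate_right (f := (map φ : P3 R → P3 R')) (ga := ⇑(Dv t))
      (gb := ⇑(Dv (φ t))) (fun x => map_D φ _ _ (map_Dv_X φ t) x) α H
  have h2 : ∀ H : P3 R, map φ ((⇑(Dz : Derivation R (P3 R) (P3 R)))^[β] H) =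
      (⇑(Dz : Derivation R' (P3 R') (P3 R')))^[β] (map φ H) := fun H =>
    Function.Semiconj.iterate_right (f := (map φ : P3 R → P3 R'))
      (ga := ⇑(Dz : Derivation R (P3 R) (P3 R))) (gb := ⇑(Dz : Derivation R' (P3 R') (P3 R')))
      (fun x => map_D φ _ _ (map_Dz_X φ) x) β H
  rw [← h2, ← h1, eval_map]
  change φ (eval₂ (RingHom.id R) P _) = _
  rw [eval₂_comp_left]
  rfl

end nat

section lin
variable {K : Type} [CommRing K]

/-- the functional as a linear map -/
noncomputable def fnL (t : K) (P : Fin 3 → K) (α β : ℕ) : P3 K →ₗ[K] K :=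
  (aeval P : P3 K →ₐ[K] K).toLinearMap ∘ₗ
    (((Dv t : Derivation K (P3 K) (P3 K)).toLinearMap : Module.End K (P3 K)) ^ α) ∘ₗ
    (((Dz : Derivation K (P3 K) (P3 K)).toLinearMap : Module.End K (P3 K)) ^ β)

theorem fnL_apply (t : K) (P : Fin 3 → K) (α β : ℕ) (G : P3 K) :
    fnL t P α β G = fn t P α β G := by
  unfold fnL fn
  rw [LinearMap.comp_apply, LinearMap.comp_apply, Module.End.pow_apply, Module.End.pow_apply]
  rfl

/-- the index set of the functionals -/
abbrev II (n s : ℕ) : Type := Fin n × (Σ k : Fin s, Fin ((k : ℕ) + 1))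

theorem card_II (n s : ℕ) : Fintype.card (II n s) = n * (s + 1).choose 2 := by
  rw [Fintype.card_prod, Fintype.card_fin, Fintype.card_sigma]
  congr 1
  simp only [Fintype.card_fin]
  rw [Fin.sum_univ_eq_sum_range (fun k => k + 1) s]
  induction s with
  | zero => simp
  | succ s ih =>
      rw [Finset.sum_range_succ, ih, Nat.choose_succ_succ' (s + 1) 1, Nat.choose_one_right]
      ring

/-- all the functionals -/
noncomputable def rho {n : ℕ} (t : K) (w : Fin n → Fin 3 → K) (s : ℕ) :
    P3 K →ₗ[K] (II n s → K) :=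
  LinearMap.pi fun r => fnL t (w r.1) (r.2.2 : ℕ) ((r.2.1 : ℕ) - (r.2.2 : ℕ))

theorem rho_apply {n : ℕ} (t : K) (w : Fin n → Fin 3 → K) (s : ℕ) (G : P3 K) (r : II n s) :
    rho t w s G r = fn t (w r.1) (r.2.2 : ℕ) ((r.2.1 : ℕ) - (r.2.2 : ℕ)) G := by
  rw [rho, LinearMap.pi_apply, fnL_apply]

theorem van_iff {n : ℕ} (t : K) (w : Fin n → Fin 3 → K) (s : ℕ) (G : P3 K) :
    (∀ q, Van t (w q) s G) ↔ rho t w s G = 0 := by
  constructor
  · intro h
    funext r
    rw [rho_apply]
    refine h r.1 _ _ ?_
    have := r.2.1.2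
    have := r.2.2.2
    omega
  · intro h q α β hab
    have := congrFun h (q, ⟨⟨α + β, hab⟩, ⟨α, by simp⟩⟩)
    rw [rho_apply] at this
    simpa using this

end lin

theorem t_TRF : S_TRF := by
  intro K K' _ _ A B n E s t w t' w' htr ⟨G, hG, hGc⟩
  classical
  have hcard : Fintype.card (II n s) = n * (s + 1).choose 2 := card_II n s
  have hli : LinearIndependent K (fun i => rho t w s (G i)) := by
    rw [Fintype.linearIndependent_iff]
    intro c hc
    have : c = 0 := hGc c (by
      rw [van_iff, map_sum]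
      simpa using hc)
    intro i
    rw [this]
    rfl
  have hspan : Submodule.span K (Set.range fun i => rho t w s (G i)) = ⊤ := by
    apply hli.span_eq_top_of_card_eq_finrank'
    rw [Module.finrank_fintype_fun_eq_card, hcard, Fintype.card_fin]
  have hspan2 : Submodule.span K ((fun m => rho t w s (mn m)) '' Idx A B E 0) = ⊤ := by
    rw [eq_top_iff, ← hspan, Submodule.span_le]
    rintro _ ⟨i, rfl⟩
    have h1 : rho t w s (G i) ∈ (Cls K A B E 0).map (rho t w s) :=
      Submodule.mem_map_of_mem (hG i)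
    rw [Cls, Submodule.map_span, ← Set.image_comp] at h1
    exact h1
  obtain ⟨b, hb, hbs, hbi⟩ := exists_linearIndependent K
    ((fun m => rho t w s (mn m)) '' Idx A B E 0)
  rw [hspan2] at hbs
  let bas : Module.Basis b K (II n s → K) := Module.Basis.mk hbi (by
    rw [Subtype.range_coe, hbs])
  have : Finite b := Module.Finite.finite_basis bas
  have : Fintype b := Fintype.ofFinite b
  have hbc : Fintype.card b = Fintype.card (II n s) := by
    rw [← Module.finrank_eq_card_basis bas, Module.finrank_fintype_fun_eq_card]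
  let e : II n s ≃ b := Fintype.equivOfCardEq hbc.symm
  choose m hm hm' using fun x : b => hb x.2
  have hli2 : LinearIndependent K (fun j : II n s => rho t w s (mn (m (e j)))) := by
    have hfun : (fun j : II n s => rho t w s (mn (m (e j)))) =
        (Subtype.val : b → (II n s → K)) ∘ e := funext fun j => hm' (e j)
    rw [hfun]
    exact hbi.comp e e.injective
  -- the universal matrix
  let T0 : MvPolynomial (Option (Fin n × Fin 3)) ℤ := X none
  let W0 : Fin n → Fin 3 → MvPolynomial (Option (Fin n × Fin 3)) ℤ := fun q i => X (some (q, i))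
  let MU : Matrix (II n s) (II n s) (MvPolynomial (Option (Fin n × Fin 3)) ℤ) :=
    Matrix.of fun j r => rho T0 W0 s (mn (m (e j))) r
  have hmap : ∀ (L : Type) [Field L] (τ : L) (v : Fin n → Fin 3 → L),
      (aeval (pt τ v)).toRingHom.mapMatrix MU = Matrix.of fun j r => rho τ v s (mn (m (e j))) r := by
    intro L _ τ v
    ext j r
    change (aeval (pt τ v)).toRingHom (rho T0 W0 s (mn (m (e j))) r) =
      rho τ v s (mn (m (e j))) r
    rw [rho_apply, rho_apply, map_fn]
    have h1 : (aeval (pt τ v)).toRingHom T0 = τ := by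
      change aeval (pt τ v) (X none) = τ
      rw [aeval_X]
      rfl
    have h2 : (fun i => (aeval (pt τ v)).toRingHom (W0 r.1 i)) = v r.1 := by
      funext i
      change aeval (pt τ v) (X (some (r.1, i))) = v r.1 i
      rw [aeval_X]
      rfl
    have h3 : map (aeval (pt τ v) :
        MvPolynomial (Option (Fin n × Fin 3)) ℤ →ₐ[ℤ] L).toRingHom
        (mn (m (e j)) : P3 (MvPolynomial (Option (Fin n × Fin 3)) ℤ)) = (mn (m (e j)) : P3 L) := by
      unfold mn
      simp only [map_mul, map_pow, map_X]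
    rw [h1, h2, h3]
  have hdet : ∀ (L : Type) [Field L] (τ : L) (v : Fin n → Fin 3 → L),
      aeval (pt τ v) MU.det = (Matrix.of fun j r => rho τ v s (mn (m (e j))) r).det := by
    intro L _ τ v
    rw [← hmap L τ v, ← RingHom.map_det]
    rfl
  have hne : aeval (pt t w) MU.det ≠ 0 := by
    rw [hdet]
    have : IsUnit (Matrix.of fun j r => rho t w s (mn (m (e j))) r) := by
      rw [← Matrix.linearIndependent_rows_iff_isUnit]
      exact hli2
    exact ((Matrix.isUnit_iff_isUnit_det _).mp this).ne_zero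
  have hne' : aeval (pt t' w') MU.det ≠ 0 := fun h => hne (htr _ h)
  rw [hdet] at hne'
  have hli3 : LinearIndependent K' (fun j : II n s => rho t' w' s (mn (m (e j)))) := by
    have : IsUnit (Matrix.of fun j r => rho t' w' s (mn (m (e j))) r) :=
      (Matrix.isUnit_iff_isUnit_det _).mpr (isUnit_iff_ne_zero.mpr hne')
    rw [← Matrix.linearIndependent_rows_iff_isUnit] at this
    exact this
  let e' : Fin (n * (s + 1).choose 2) ≃ II n s := (Fintype.equivFinOfCardEq hcard).symm
  refine ⟨fun i => mn (m (e (e' i))), fun i => Submodule.subset_span ⟨_, hm _, rfl⟩, ?_⟩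
  intro c hc
  rw [van_iff, map_sum] at hc
  have h4 := hli3.comp e' e'.injective
  rw [Fintype.linearIndependent_iff] at h4
  funext i
  exact h4 c (by simpa using hc) i

end Pool.Agent.K1H78.ES
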